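import Pool.Agent.R451.Ext3

/-!
# Almost every graph has 3-ASC index 3
-/

open Finset SimpleGraph Pool.Agent.R451.Ext3

namespace Pool.Agent.Results.MP_5f8894_co.ThetaThree

/-- The eccentricity of `u`: the largest distance from `u` to a vertex. -/
noncomputable def ecc {W : Type} [Fintype W] (H : SimpleGraph W) (u : W) : ℕ :=
  univ.sup fun v => H.dist u v

/-- `H` is an `r`-ASC graph: it is connected, its radius (the least eccentricity) is `r`, and exactly
two of its vertices have eccentricity different from `r`. -/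
def IsASC {W : Type} [Fintype W] (r : ℕ) (H : SimpleGraph W) : Prop :=
  H.Connected ∧ (∀ u, r ≤ ecc H u) ∧ (∃ u, ecc H u = r) ∧ {u | ecc H u ≠ r}.ncard = 2

/-- The `r`-ASC index `θ_r(G)`: the least `k` such that some `r`-ASC graph with `|V(G)| + k`
vertices contains `G` as an induced subgraph. -/
noncomputable def theta {V : Type} [Fintype V] (r : ℕ) (G : SimpleGraph V) : ℕ :=
  sInf {k | ∃ (W : Type) (_ : Fintype W) (H : SimpleGraph W),
    Fintype.card W = Fintype.card V + k ∧ IsASC r H ∧ Nonempty (G ↪g H)}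

variable {W : Type} {H : SimpleGraph W}

lemma dist_le_two {x y z : W} (h1 : H.Adj x y) (h2 : H.Adj y z) : H.dist x z ≤ 2 :=
  dist_le (Walk.cons h1 (Walk.cons h2 Walk.nil))

lemma dist_le_three {x y z t : W} (h1 : H.Adj x y) (h2 : H.Adj y z) (h3 : H.Adj z t) :
    H.dist x t ≤ 3 :=
  dist_le (Walk.cons h1 (Walk.cons h2 (Walk.cons h3 Walk.nil)))

lemma dist_le_one {x y : W} (h : H.Adj x y) : H.dist x y ≤ 1 := dist_le (Walk.cons h Walk.nil)

lemma three_le_dist (hc : H.Connected) {x z : W} (h0 : x ≠ z) (h1 : ¬ H.Adj x z)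
    (h2 : ∀ y, H.Adj x y → ¬ H.Adj y z) : 3 ≤ H.dist x z := by
  obtain ⟨p, hp⟩ := (hc x z).exists_walk_length_eq_dist
  rw [← hp]
  by_contra hcon
  push Not at hcon
  match p, hcon with
  | Walk.nil, _ => exact h0 rfl
  | Walk.cons a Walk.nil, _ => exact h1 a
  | Walk.cons a (Walk.cons b Walk.nil), _ => exact h2 _ a b
  | Walk.cons a (Walk.cons b (Walk.cons c p)), h => simp at h; omega

lemma four_le_dist (hc : H.Connected) {x z : W} (h0 : x ≠ z) (h1 : ¬ H.Adj x z)
    (h2 : ∀ y, H.Adj x y → ¬ H.Adj y z) (h3 : ∀ y t, H.Adj x y → H.Adj y t → ¬ H.Adj t z) :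
    4 ≤ H.dist x z := by
  obtain ⟨p, hp⟩ := (hc x z).exists_walk_length_eq_dist
  rw [← hp]
  by_contra hcon
  push Not at hcon
  match p, hcon with
  | Walk.nil, _ => exact h0 rfl
  | Walk.cons a Walk.nil, _ => exact h1 a
  | Walk.cons a (Walk.cons b Walk.nil), _ => exact h2 _ a b
  | Walk.cons a (Walk.cons b (Walk.cons c Walk.nil)), _ => exact h3 _ _ a b c
  | Walk.cons a (Walk.cons b (Walk.cons c (Walk.cons d p))), h => simp at h; omega

lemma ecc_le [Fintype W] {u : W} {r : ℕ} (h : ∀ v, H.dist u v ≤ r) : ecc H u ≤ r :=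
  Finset.sup_le fun v _ => h v

lemma le_ecc [Fintype W] (u v : W) : H.dist u v ≤ ecc H u :=
  Finset.le_sup (f := fun v => H.dist u v) (mem_univ v)

lemma exists_far [Fintype W] [Nonempty W] {u : W} {r : ℕ} (h : r ≤ ecc H u) :
    ∃ v, r ≤ H.dist u v := by
  obtain ⟨v, _, hv⟩ := Finset.exists_mem_eq_sup univ ⟨u, mem_univ u⟩ fun v => H.dist u v
  exact ⟨v, by rw [← hv]; exact h⟩

variable {n : ℕ} {G : SimpleGraph (Fin n)}

lemma exists_third (hn : 3 ≤ n) (u v : Fin n) : ∃ w : Fin n, u ≠ w ∧ v ≠ w := by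
  obtain ⟨w, hw⟩ : ∃ w : Fin n, w ∉ ({u, v} : Finset (Fin n)) := by
    by_contra hcon
    push Not at hcon
    have h1 : (univ : Finset (Fin n)) ⊆ {u, v} := fun w _ => hcon w
    have h2 := (card_le_card h1).trans card_le_two
    rw [card_univ, Fintype.card_fin] at h2
    omega
  simp only [mem_insert, mem_singleton, not_or] at hw
  exact ⟨w, Ne.symm hw.1, Ne.symm hw.2⟩

lemma common (hG : Good G) (hn : 3 ≤ n) {u v : Fin n} (huv : u ≠ v) :
    ∃ y, G.Adj u y ∧ G.Adj v y := by
  obtain ⟨w, hw1, hw2⟩ := exists_third hn u v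
  obtain ⟨y, _, _, _, h1, h2, _⟩ := hG u v w huv hw1 hw2 (true, true, true)
  exact ⟨y, h1.mpr rfl, h2.mpr rfl⟩

/-- lower bound: no `3`-ASC graph with at most two more vertices contains `G` -/
lemma three_le_of_embedding (hG : Good G) (hn : 3 ≤ n) [Fintype W] (hA : IsASC 3 H)
    (φ : G ↪g H) : n + 3 ≤ Fintype.card W := by
  classical
  by_contra hcon
  push Not at hcon
  obtain ⟨hc, hrad, -, -⟩ := hA
  have : Nonempty W := hc.nonempty
  set I : Finset W := univ.map ⟨φ, φ.injective⟩ with hI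
  have hIc : I.card = n := by rw [hI, card_map, card_univ, Fintype.card_fin]
  have hZ : Iᶜ.card ≤ 2 := by
    rw [card_compl, hIc]
    omega
  have memI : ∀ g, φ g ∈ I := fun g => mem_map.mpr ⟨g, mem_univ g, rfl⟩
  have hfar : ∀ g, ∃ z ∈ Iᶜ, 3 ≤ H.dist (φ g) z := by
    intro g
    obtain ⟨z, hz⟩ := exists_far (hrad (φ g))
    refine ⟨z, ?_, hz⟩
    rw [mem_compl]
    intro hzI
    obtain ⟨g', _, hg'⟩ := mem_map.mp hzI
    have hg'' : φ g' = z := hg'
    subst hg''
    by_cases hgg : g = g'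
    · subst hgg
      rw [dist_self] at hz
      omega
    · obtain ⟨y, h1, h2⟩ := common hG hn hgg
      have := dist_le_two (φ.map_adj_iff.mpr h1) (φ.map_adj_iff.mpr h2.symm)
      omega
  -- an edge between `I` and its complement
  obtain ⟨z0, hz0, hz0'⟩ := hfar ⟨0, by omega⟩
  obtain ⟨g1, z1, hz1, hadj1⟩ : ∃ g z, z ∈ Iᶜ ∧ H.Adj (φ g) z := by
    by_contra hcon2
    push Not at hcon2
    have hstep : ∀ x y : W, H.Walk x y → x ∈ I → y ∈ I := by
      intro x y p
      induction p with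
      | nil => exact id
      | cons hadj p ih =>
        intro hx
        apply ih
        obtain ⟨g, _, hg⟩ := mem_map.mp hx
        have hg' : φ g = _ := hg
        subst hg'
        by_contra hv
        exact hcon2 g _ (mem_compl.mpr hv) hadj
    obtain ⟨p⟩ := hc (φ ⟨0, by omega⟩) z0
    exact (mem_compl.mp hz0) (hstep _ _ p (memI _))
  obtain ⟨z2, hz2, hfar2⟩ := hfar g1
  have h12 : z1 ≠ z2 := by
    rintro rfl
    have := dist_le_one hadj1
    omega
  have hZ2 : ∀ z ∈ Iᶜ, z = z1 ∨ z = z2 := by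
    intro z hz
    by_contra hcon3
    push Not at hcon3
    have h3 : ({z1, z2, z} : Finset W) ⊆ Iᶜ := by
      intro t ht
      simp only [mem_insert, mem_singleton] at ht
      rcases ht with rfl | rfl | rfl <;> assumption
    have h4 := card_le_card h3
    rw [card_insert_of_notMem, card_insert_of_notMem, card_singleton] at h4
    · omega
    · simp [hcon3.2.symm]
    · simp [h12, hcon3.1.symm]
  have hz12 : ¬ H.Adj z1 z2 := by
    intro h
    have := dist_le_two hadj1 h
    omega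
  -- `z2` has a neighbour
  obtain ⟨t, ht⟩ : ∃ t, H.Adj t z2 := by
    obtain ⟨p⟩ := hc (φ g1) z2
    have hne : φ g1 ≠ z2 := by
      intro h
      rw [h, dist_self] at hfar2
      omega
    obtain ⟨t, ht, -⟩ := Walk.exists_eq_cons_of_ne hne.symm p.reverse
    exact ⟨t, ht.symm⟩
  have htI : t ∈ I := by
    by_contra htI
    rcases hZ2 t (mem_compl.mpr htI) with rfl | rfl
    · exact hz12 ht
    · exact H.irrefl ht
  obtain ⟨g2, _, hg2⟩ := mem_map.mp htI
  have hg2' : φ g2 = t := hg2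
  subst hg2'
  have hg12 : g1 ≠ g2 := by
    rintro rfl
    have := dist_le_one ht
    omega
  obtain ⟨g, hg1, hg2⟩ := common hG hn hg12
  obtain ⟨z, hz, hz3⟩ := hfar g
  rcases hZ2 z hz with rfl | rfl
  · have := dist_le_two (φ.map_adj_iff.mpr hg1.symm) hadj1
    omega
  · have := dist_le_two (φ.map_adj_iff.mpr hg2.symm) ht
    omega

/-- The set `Y` of common non-neighbours of `w` and `v`. -/
def YSet (G : SimpleGraph (Fin n)) (w v : Fin n) : Set (Fin n) :=
  {y | y ≠ w ∧ y ≠ v ∧ ¬ G.Adj w y ∧ ¬ G.Adj v y}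

/-- adjacency of the extension: `a = inr 0`, `b = inr 1`, `c = inr 2` -/
def extAdj (G : SimpleGraph (Fin n)) (w v : Fin n) : Fin n ⊕ Fin 3 → Fin n ⊕ Fin 3 → Prop
  | Sum.inl x, Sum.inl y => G.Adj x y
  | Sum.inl x, Sum.inr i => (i = 1 ∧ x ∈ YSet G w v) ∨ (i = 2 ∧ x = w)
  | Sum.inr i, Sum.inl x => (i = 1 ∧ x ∈ YSet G w v) ∨ (i = 2 ∧ x = w)
  | Sum.inr i, Sum.inr j => (i = 0 ∧ j ≠ 0) ∨ (i ≠ 0 ∧ j = 0)

/-- the extension of `G` by three vertices -/
def extG (G : SimpleGraph (Fin n)) (w v : Fin n) : SimpleGraph (Fin n ⊕ Fin 3) where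
  Adj := extAdj G w v
  symm := ⟨by
    rintro (x | i) (y | j) h
    · exact G.symm.symm _ _ h
    · exact h
    · exact h
    · rcases h with ⟨h1, h2⟩ | ⟨h1, h2⟩
      · exact Or.inr ⟨h2, h1⟩
      · exact Or.inl ⟨h2, h1⟩⟩
  loopless := ⟨by
    rintro (x | i) h
    · exact G.irrefl h
    · rcases h with ⟨h1, h2⟩ | ⟨h1, h2⟩
      · exact h2 h1
      · exact h1 h2⟩

lemma adj_ll {w v x y : Fin n} : (extG G w v).Adj (Sum.inl x) (Sum.inl y) ↔ G.Adj x y := Iff.rfl

lemma adj_lr {w v x : Fin n} {i : Fin 3} : (extG G w v).Adj (Sum.inl x) (Sum.inr i) ↔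
    (i = 1 ∧ x ∈ YSet G w v) ∨ (i = 2 ∧ x = w) := Iff.rfl

lemma adj_rl {w v x : Fin n} {i : Fin 3} : (extG G w v).Adj (Sum.inr i) (Sum.inl x) ↔
    (i = 1 ∧ x ∈ YSet G w v) ∨ (i = 2 ∧ x = w) := Iff.rfl

lemma adj_rr {w v : Fin n} {i j : Fin 3} : (extG G w v).Adj (Sum.inr i) (Sum.inr j) ↔
    (i = 0 ∧ j ≠ 0) ∨ (i ≠ 0 ∧ j = 0) := Iff.rfl

/-- upper bound -/
lemma isASC_ext (hG : Good G) (hn : 3 ≤ n) {w v : Fin n} (hwv : w ≠ v) (hadj : ¬ G.Adj w v) :
    IsASC 3 (extG G w v) := by
  classical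
  set H := extG G w v with hH
  obtain ⟨y0, hy0⟩ : ∃ y0, y0 ∈ YSet G w v := by
    obtain ⟨x, hx1, hx2⟩ := exists_third hn w v
    obtain ⟨y, hy1, hy2, _, h1, h2, _⟩ := hG w v x hwv hx1 hx2 (false, false, false)
    exact ⟨y, hy1, hy2, fun h => Bool.noConfusion (h1.mp h), fun h => Bool.noConfusion (h2.mp h)⟩
  have hab : H.Adj (Sum.inr 0) (Sum.inr 1) := adj_rr.mpr (Or.inl ⟨rfl, by decide⟩)
  have hac : H.Adj (Sum.inr 0) (Sum.inr 2) := adj_rr.mpr (Or.inl ⟨rfl, by decide⟩)
  have hyb : ∀ y ∈ YSet G w v, H.Adj (Sum.inl y) (Sum.inr 1) := fun y hy =>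
    adj_lr.mpr (Or.inl ⟨rfl, hy⟩)
  have hwc : H.Adj (Sum.inl w) (Sum.inr 2) := adj_lr.mpr (Or.inr ⟨rfl, rfl⟩)
  have d2 : ∀ x y : Fin n, H.dist (Sum.inl x) (Sum.inl y) ≤ 2 ∧
      H.Reachable (Sum.inl x) (Sum.inl y) := by
    intro x y
    by_cases hxy : x = y
    · subst hxy
      rw [dist_self]
      exact ⟨by omega, Reachable.refl _⟩
    · obtain ⟨t, h1, h2⟩ := common hG hn hxy
      have h1' : H.Adj (Sum.inl x) (Sum.inl t) := h1
      have h2' : H.Adj (Sum.inl t) (Sum.inl y) := h2.symm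
      exact ⟨dist_le_two h1' h2', h1'.reachable.trans h2'.reachable⟩
  have hc : H.Connected := by
    have h0 : ∀ x, H.Reachable (Sum.inl w) x := by
      rintro (x | i)
      · exact (d2 w x).2
      · fin_cases i
        · exact hwc.reachable.trans hac.symm.reachable
        · exact (d2 w y0).2.trans (hyb y0 hy0).reachable
        · exact hwc.reachable
    have : Nonempty (Fin n ⊕ Fin 3) := ⟨Sum.inl w⟩
    exact ⟨fun x y => (h0 x).symm.trans (h0 y)⟩
  -- upper bounds
  have u_gc : ∀ g, H.dist (Sum.inl g) (Sum.inr 2) ≤ 3 := fun g => by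
    have h1 := hc.dist_triangle (u := Sum.inl g) (v := Sum.inl w) (w := Sum.inr 2)
    have h2 := dist_le_one hwc
    have h3 := (d2 g w).1
    omega
  have u_gb : ∀ g, H.dist (Sum.inl g) (Sum.inr 1) ≤ 3 := fun g => by
    have h1 := hc.dist_triangle (u := Sum.inl g) (v := Sum.inl y0) (w := Sum.inr 1)
    have h2 := dist_le_one (hyb y0 hy0)
    have h3 := (d2 g y0).1
    omega
  have u_ga : ∀ g, g ≠ v → H.dist (Sum.inl g) (Sum.inr 0) ≤ 3 := by
    intro g hgv
    by_cases h1 : g = w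
    · subst h1
      exact (dist_le_two hwc hac.symm).trans (by omega)
    by_cases h2 : g ∈ YSet G w v
    · exact (dist_le_two (hyb g h2) hab.symm).trans (by omega)
    by_cases h3 : G.Adj w g
    · have h3' : H.Adj (Sum.inl g) (Sum.inl w) := h3.symm
      exact dist_le_three h3' hwc hac.symm
    · obtain ⟨y, hy1, hy2, hy3, p1, p2, p3⟩ := hG g w v h1 hgv hwv (true, false, false)
      have h4 : H.Adj (Sum.inl g) (Sum.inl y) := p1.mpr rfl
      have h5 : y ∈ YSet G w v := ⟨hy2, hy3, fun h => Bool.noConfusion (p2.mp h),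
        fun h => Bool.noConfusion (p3.mp h)⟩
      exact dist_le_three h4 (hyb y h5) hab.symm
  have u_va : H.dist (Sum.inl v) (Sum.inr 0) ≤ 4 := by
    obtain ⟨t, _, ht⟩ := common hG hn hwv
    have ht' : H.Adj (Sum.inl v) (Sum.inl t) := ht
    have h1 := hc.dist_triangle (u := Sum.inl v) (v := Sum.inl t) (w := Sum.inr 0)
    have h2 := dist_le_one ht'
    have h3 := u_ga t (fun h => G.irrefl (h ▸ ht))
    omega
  have u_ab : H.dist (Sum.inr 0) (Sum.inr 1) ≤ 1 := dist_le_one hab
  have u_ac : H.dist (Sum.inr 0) (Sum.inr 2) ≤ 1 := dist_le_one hac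
  have u_bc : H.dist (Sum.inr 1) (Sum.inr 2) ≤ 2 := dist_le_two hab.symm hac
  -- lower bounds
  have hwY : w ∉ YSet G w v := fun h => h.1 rfl
  have hvY : v ∉ YSet G w v := fun h => h.2.1 rfl
  have nola : ∀ t : Fin n, ¬ H.Adj (Sum.inl t) (Sum.inr 0) := by
    rintro t (⟨h, _⟩ | ⟨h, _⟩)
    · exact absurd h (by decide)
    · exact absurd h (by decide)
  have nobc : ¬ H.Adj (Sum.inr 1) (Sum.inr 2) := by
    rintro (⟨h, _⟩ | ⟨_, h⟩)
    · exact absurd h (by decide)
    · exact absurd h (by decide)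
  have l_ga : ∀ g, g ∉ YSet G w v → g ≠ w → 3 ≤ H.dist (Sum.inl g) (Sum.inr 0) := by
    intro g h1 h2
    refine three_le_dist hc (by simp) (nola g) ?_
    rintro (t | i) h3 h4
    · exact nola t h4
    · rcases h3 with ⟨_, h⟩ | ⟨_, h⟩
      · exact h1 h
      · exact h2 h
  have l_wb : 3 ≤ H.dist (Sum.inl w) (Sum.inr 1) := by
    refine three_le_dist hc (by simp) ?_ ?_
    · rintro (⟨_, h⟩ | ⟨h, _⟩)
      · exact hwY h
      · exact absurd h (by decide)
    · rintro (t | i) h3 h4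
      · rcases h4 with ⟨_, h⟩ | ⟨h, _⟩
        · exact h.2.2.1 h3
        · exact absurd h (by decide)
      · rcases h3 with ⟨_, h⟩ | ⟨h, _⟩
        · exact hwY h
        · subst h
          exact nobc h4.symm
  have l_yc : ∀ y ∈ YSet G w v, 3 ≤ H.dist (Sum.inl y) (Sum.inr 2) := by
    intro y hy
    refine three_le_dist hc (by simp) ?_ ?_
    · rintro (⟨h, _⟩ | ⟨_, h⟩)
      · exact absurd h (by decide)
      · exact hy.1 h
    · rintro (t | i) h3 h4
      · rcases h4 with ⟨h, _⟩ | ⟨_, h⟩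
        · exact absurd h (by decide)
        · subst h
          exact hy.2.2.1 (G.symm.symm _ _ h3)
      · rcases h3 with ⟨h, _⟩ | ⟨_, h⟩
        · subst h
          exact nobc h4
        · exact hy.1 h
  have l_va : 4 ≤ H.dist (Sum.inl v) (Sum.inr 0) := by
    have hv1 : ∀ i, ¬ H.Adj (Sum.inl v) (Sum.inr i) := by
      rintro i (⟨_, h⟩ | ⟨_, h⟩)
      · exact hvY h
      · exact hwv h.symm
    refine four_le_dist hc (by simp) (nola v) ?_ ?_
    · rintro (t | i) h3 h4
      · exact nola t h4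
      · exact hv1 i h3
    · rintro (s | i) (t | j) h3 h4 h5
      · exact nola t h5
      · rcases h4 with ⟨_, h⟩ | ⟨_, h⟩
        · exact h.2.2.2 h3
        · subst h
          exact hadj (G.symm.symm _ _ h3)
      · exact hv1 i h3
      · exact hv1 i h3
  -- eccentricities
  have e_a : ecc H (Sum.inr 0) = 4 := by
    refine le_antisymm (ecc_le ?_) ?_
    · rintro (g | i)
      · rw [dist_comm]
        by_cases hg : g = v
        · subst hg
          exact u_va
        · exact (u_ga g hg).trans (by omega)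
      · fin_cases i
        · simp
        · exact u_ab.trans (by omega)
        · exact u_ac.trans (by omega)
    · refine le_trans ?_ (le_ecc (Sum.inr 0) (Sum.inl v))
      rw [dist_comm]
      exact l_va
  have e_b : ecc H (Sum.inr 1) = 3 := by
    refine le_antisymm (ecc_le ?_) ?_
    · rintro (g | i)
      · rw [dist_comm]
        exact u_gb g
      · fin_cases i
        · rw [dist_comm]
          exact u_ab.trans (by omega)
        · simp
        · exact u_bc.trans (by omega)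
    · refine le_trans ?_ (le_ecc (Sum.inr 1) (Sum.inl w))
      rw [dist_comm]
      exact l_wb
  have e_c : ecc H (Sum.inr 2) = 3 := by
    refine le_antisymm (ecc_le ?_) ?_
    · rintro (g | i)
      · rw [dist_comm]
        exact u_gc g
      · fin_cases i
        · rw [dist_comm]
          exact u_ac.trans (by omega)
        · rw [dist_comm]
          exact u_bc.trans (by omega)
        · simp
    · refine le_trans ?_ (le_ecc (Sum.inr 2) (Sum.inl y0))
      rw [dist_comm]
      exact l_yc y0 hy0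
  have e_v : ecc H (Sum.inl v) = 4 := by
    refine le_antisymm (ecc_le ?_) (l_va.trans (le_ecc _ _))
    rintro (g | i)
    · exact (d2 v g).1.trans (by omega)
    · fin_cases i
      · exact u_va
      · exact (u_gb v).trans (by omega)
      · exact (u_gc v).trans (by omega)
  have e_g : ∀ g, g ≠ v → ecc H (Sum.inl g) = 3 := by
    intro g hg
    refine le_antisymm (ecc_le ?_) ?_
    · rintro (g' | i)
      · exact (d2 g g').1.trans (by omega)
      · fin_cases i
        · exact u_ga g hg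
        · exact u_gb g
        · exact u_gc g
    · by_cases h1 : g = w
      · subst h1
        exact l_wb.trans (le_ecc _ _)
      by_cases h2 : g ∈ YSet G w v
      · exact (l_yc g h2).trans (le_ecc _ _)
      · exact (l_ga g h2 h1).trans (le_ecc _ _)
  have hall : ∀ x, ecc H x = 3 ∨ (ecc H x = 4 ∧ (x = Sum.inr 0 ∨ x = Sum.inl v)) := by
    rintro (g | i)
    · by_cases hg : g = v
      · subst hg
        exact Or.inr ⟨e_v, Or.inr rfl⟩
      · exact Or.inl (e_g g hg)
    · fin_cases i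
      · exact Or.inr ⟨e_a, Or.inl rfl⟩
      · exact Or.inl e_b
      · exact Or.inl e_c
  refine ⟨hc, ?_, ⟨Sum.inr 1, e_b⟩, ?_⟩
  · intro x
    rcases hall x with h | ⟨h, _⟩ <;> omega
  · have hset : {x | ecc H x ≠ 3} = {Sum.inr 0, Sum.inl v} := by
      ext x
      simp only [Set.mem_ofPred_eq, Set.mem_insert_iff, Set.mem_singleton_iff]
      constructor
      · intro h
        rcases hall x with h' | ⟨_, h'⟩
        · exact absurd h' h
        · exact h'
      · rintro (rfl | rfl)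
        · rw [e_a]
          decide
        · rw [e_v]
          decide
    rw [hset]
    exact Set.ncard_pair (by simp)

/-- A graph with the extension property has `3`-ASC index `3`. -/
lemma theta_eq (hn : 3 ≤ n) (hG : Good G) : theta 3 G = 3 := by
  classical
  obtain ⟨w, v, hwv, hadj⟩ : ∃ w v : Fin n, w ≠ v ∧ ¬ G.Adj w v := by
    obtain ⟨y, hy, _, _, h1, _, _⟩ := hG ⟨0, by omega⟩ ⟨1, by omega⟩ ⟨2, by omega⟩
      (by simp) (by simp) (by simp) (false, false, false)
    exact ⟨_, y, hy.symm, fun h => Bool.noConfusion (h1.mp h)⟩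
  have hmem : (3 : ℕ) ∈ {k | ∃ (W : Type) (_ : Fintype W) (H : SimpleGraph W),
      Fintype.card W = Fintype.card (Fin n) + k ∧ IsASC 3 H ∧ Nonempty (G ↪g H)} := by
    refine ⟨Fin n ⊕ Fin 3, inferInstance, extG G w v, by simp, isASC_ext hG hn hwv hadj, ?_⟩
    exact ⟨⟨⟨Sum.inl, Sum.inl_injective⟩, Iff.rfl⟩⟩
  refine le_antisymm (Nat.sInf_le hmem) ?_
  refine le_csInf ⟨3, hmem⟩ ?_
  rintro k ⟨W, _, H, hW, hA, ⟨φ⟩⟩
  have := three_le_of_embedding hG hn hA φ
  rw [hW, Fintype.card_fin] at this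
  omega

/-- **Almost every graph has `3`-ASC index `3`.** -/
theorem result : AlmostEvery fun _ G => theta 3 G = 3 :=
  almostEvery_of_good _ fun _ hn _ hG => theta_eq hn hG

end Pool.Agent.Results.MP_5f8894_co.ThetaThree
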